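import Mathlib

/-!
Definitions for the statement about constraint satisfaction problems in hereditary first-order
logic.
-/

set_option autoImplicit false

namespace Pool.Agent.Lib.MP_46fb1e_lc

open FirstOrder FirstOrder.Language FirstOrder.Language.Structure

/-- every nonempty (induced) substructure of `A` satisfies `φ` -/
def HereditarilySatisfies (L : FirstOrder.Language.{0, 0}) (A : Type) [L.Structure A]
    (φ : L.Sentence) : Prop :=
  ∀ S : L.Substructure A, (S : Set A).Nonempty → S ⊨ φ

/-- `CSP(B)` is in HerFO: there is a first-order sentence `φ` such that a finite structure has a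
homomorphism to `B` if and only if it hereditarily satisfies `φ` -/
def CSPInHerFO (L : FirstOrder.Language.{0, 0}) (B : Type) [L.Structure B] : Prop :=
  ∃ φ : L.Sentence, ∀ (A : Type) [Finite A] [Nonempty A] [L.Structure A],
    Nonempty (A →[L] B) ↔ HereditarilySatisfies L A φ

/-- the arc relation, on the set `B ^ d`, of the pp-power of `B` given by the primitive positive
formula with canonical structure `Γ` and free variables `p`, `q` (`2 d` variables, not necessarily
distinct): `x` and `y` are related when there is a homomorphism from `Γ` to `B` which sends `p` to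
`x` and `q` to `y` -/
def PowArc (L : FirstOrder.Language.{0, 0}) (B : Type) [L.Structure B] {d : ℕ} (Γ : Type)
    [L.Structure Γ] (p q : Fin d → Γ) (x y : Fin d → B) : Prop :=
  ∃ h : Γ →[L] B, (∀ k, h (p k) = x k) ∧ (∀ k, h (q k) = y k)

/-- `B` pp-constructs the triangle: some pp-power of `B` with one binary relation is
homomorphically equivalent to the complete graph on three vertices -/
def PPConstructsTriangle (L : FirstOrder.Language.{0, 0}) (B : Type) [L.Structure B] : Prop :=
  ∃ (d : ℕ) (Γ : Type) (_ : Finite Γ) (_ : L.Structure Γ) (p q : Fin d → Γ),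
    (∃ f : Fin 3 → (Fin d → B), ∀ a b, a ≠ b → PowArc L B Γ p q (f a) (f b)) ∧
      ∃ g : (Fin d → B) → Fin 3, ∀ x y, PowArc L B Γ p q x y → g x ≠ g y

end Pool.Agent.Lib.MP_46fb1e_lc
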