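import Mathlib

/-! Back and forth systems for first-order logic over relational languages. -/

open FirstOrder FirstOrder.Language

namespace Pool.Agent.Lib.MP_46fb1e_lc

variable {L : FirstOrder.Language.{0, 0}}

/-- Quantifier depth. -/
def qd : ∀ {n : ℕ}, L.BoundedFormula Empty n → ℕ
  | _, .falsum => 0
  | _, .equal _ _ => 0
  | _, .rel _ _ => 0
  | _, .imp f g => max (qd f) (qd g)
  | _, .all f => qd f + 1

/-- The index of the variable that a term over a relational language is. -/
theorem term_var [L.IsRelational] {n : ℕ} (t : L.Term (Empty ⊕ Fin n)) :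
    ∃ i : Fin n, t = Term.var (Sum.inr i) := by
  cases t with
  | var s =>
    rcases s with e | i
    · exact e.elim
    · exact ⟨i, rfl⟩
  | func f ts => exact isEmptyElim f

theorem ef {M N : Type} [L.Structure M] [L.Structure N] [L.IsRelational]
    (I : ℕ → ∀ n : ℕ, (Fin n → M) → (Fin n → N) → Prop)
    (heq : ∀ k n a b, I k n a b → ∀ i j, (a i = a j ↔ b i = b j))
    (hrel : ∀ k n a b, I k n a b → ∀ l (R : L.Relations l) (v : Fin l → Fin n),
      (Structure.RelMap R (fun i => a (v i)) ↔ Structure.RelMap R (fun i => b (v i))))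
    (hforth : ∀ k n a b, I (k + 1) n a b → ∀ x : M, ∃ y : N,
      I k (n + 1) (Fin.snoc a x) (Fin.snoc b y))
    (hback : ∀ k n a b, I (k + 1) n a b → ∀ y : N, ∃ x : M,
      I k (n + 1) (Fin.snoc a x) (Fin.snoc b y)) :
    ∀ {n : ℕ} (f : L.BoundedFormula Empty n) (k : ℕ), qd f ≤ k → ∀ a b, I k n a b →
      (f.Realize default a ↔ f.Realize default b) := by
  intro n f
  induction f with
  | falsum => intro k _ a b _; exact Iff.rfl
  | equal t₁ t₂ =>
    intro k _ a b h
    obtain ⟨i, rfl⟩ := term_var t₁
    obtain ⟨j, rfl⟩ := term_var t₂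
    exact heq k _ a b h i j
  | rel R ts =>
    intro k _ a b h
    have hts : ∀ i, ∃ j, ts i = Term.var (Sum.inr j) := fun i => term_var (ts i)
    choose v hv using hts
    have := hrel k _ a b h _ R v
    simp only [BoundedFormula.Realize, hv]
    exact this
  | imp f g ihf ihg =>
    intro k hk a b h
    simp only [qd] at hk
    exact imp_congr (ihf k (by omega) a b h) (ihg k (by omega) a b h)
  | all f ih =>
    intro k hk a b h
    simp only [qd] at hk
    obtain ⟨k, rfl⟩ : ∃ k', k = k' + 1 := ⟨k - 1, by omega⟩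
    constructor
    · intro hf y
      obtain ⟨x, hx⟩ := hback k _ a b h y
      exact (ih k (by omega) _ _ hx).1 (hf x)
    · intro hf x
      obtain ⟨y, hy⟩ := hforth k _ a b h x
      exact (ih k (by omega) _ _ hy).2 (hf y)

end Pool.Agent.Lib.MP_46fb1e_lc
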