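import Mathlib

/-! Port graphs, walks, codes of balls, and the extension step of a back and forth argument. -/

namespace Pool.Agent.Lib.MP_46fb1e_lc

variable {P X C : Type}

/-- Walk along a list of ports. -/
def walk (nb : P → X → Option X) : List P → X → Option X
  | [], x => some x
  | p :: w, x => (nb p x).bind (walk nb w)

theorem walk_nil (nb : P → X → Option X) (x : X) : walk nb [] x = some x := rfl

theorem walk_cons (nb : P → X → Option X) (p : P) (w : List P) (x : X) :
    walk nb (p :: w) x = (nb p x).bind (walk nb w) := rfl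

theorem walk_one (nb : P → X → Option X) (p : P) (x : X) :
    walk nb [p] x = nb p x := by
  rw [walk_cons]
  cases nb p x with
  | none => rfl
  | some y => rfl

theorem walk_append (nb : P → X → Option X) (w v : List P) (x : X) :
    walk nb (w ++ v) x = (walk nb w x).bind (walk nb v) := by
  induction w generalizing x with
  | nil => simp [walk]
  | cons p w ih =>
    simp only [List.cons_append, walk]
    cases nb p x with
    | none => rfl
    | some y => simp [ih]

theorem walk_append_some {nb : P → X → Option X} {w : List P} {x y : X}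
    (h : walk nb w x = some y) (v : List P) : walk nb (w ++ v) x = walk nb v y := by
  rw [walk_append, h]
  rfl

/-- `inv` reverses ports. -/
structure IsInv (nb : P → X → Option X) (inv : P → P) : Prop where
  sym : ∀ p x y, nb p x = some y → nb (inv p) y = some x
  invinv : ∀ p, inv (inv p) = p

/-- Reversed word. -/
def rev (inv : P → P) : List P → List P
  | [] => []
  | p :: w => rev inv w ++ [inv p]

theorem rev_append (inv : P → P) (w v : List P) :
    rev inv (w ++ v) = rev inv v ++ rev inv w := by
  induction w with
  | nil => simp [rev]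
  | cons p w ih => simp [rev, ih]

theorem rev_rev {inv : P → P} (h : ∀ p, inv (inv p) = p) (w : List P) :
    rev inv (rev inv w) = w := by
  induction w with
  | nil => rfl
  | cons p w ih => simp [rev, rev_append, ih, h]

theorem length_rev (inv : P → P) (w : List P) : (rev inv w).length = w.length := by
  induction w with
  | nil => rfl
  | cons p w ih => simp [rev, ih]

theorem walk_rev {nb : P → X → Option X} {inv : P → P} (hi : IsInv nb inv) (w : List P) :
    ∀ x y : X, walk nb w x = some y → walk nb (rev inv w) y = some x := by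
  induction w with
  | nil =>
    intro x y h
    simp only [walk, Option.some.injEq] at h
    simp [rev, walk, h]
  | cons p w ih =>
    intro x y h
    rw [walk_cons] at h
    cases hz : nb p x with
    | none => rw [hz] at h; simp at h
    | some z =>
      rw [hz] at h
      simp only [Option.bind_some] at h
      have h1 := ih z y h
      simp only [rev]
      rw [walk_append_some h1, walk_one]
      exact hi.sym p x z hz

theorem walk_rev_iff {nb : P → X → Option X} {inv : P → P} (hi : IsInv nb inv) (w : List P)
    (x y : X) : walk nb w x = some y ↔ walk nb (rev inv w) y = some x := by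
  constructor
  · exact walk_rev hi w x y
  · intro h
    have := walk_rev hi (rev inv w) y x h
    rwa [rev_rev hi.invinv] at this

/-- Words of length at most `r`. -/
abbrev Wd (P : Type) (r : ℕ) := {w : List P // w.length ≤ r}

instance instFiniteWd [Finite P] (r : ℕ) : Finite (Wd P r) :=
  (List.finite_length_le P r).to_subtype

/-- Codes of balls of radius `r`. -/
abbrev Code (P C : Type) (r : ℕ) := (Wd P r → Option C) × (Wd P r → Wd P r → Prop)

/-- The code of the ball of radius `r` around `x`. -/
def code (nb : P → X → Option X) (col : X → C) (r : ℕ) (x : X) : Code P C r :=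
  (fun w => (walk nb w.1 x).map col, fun w v => walk nb w.1 x = walk nb v.1 x)

theorem code_col {nb : P → X → Option X} {c₁ c₂ : X → C} {r : ℕ} {x y : X}
    (h : code nb c₁ r x = code nb c₂ r y) (w : List P) (hw : w.length ≤ r) :
    (walk nb w x).map c₁ = (walk nb w y).map c₂ :=
  congrFun (congrArg Prod.fst h) ⟨w, hw⟩

theorem code_eq {nb : P → X → Option X} {c₁ c₂ : X → C} {r : ℕ} {x y : X}
    (h : code nb c₁ r x = code nb c₂ r y) (w v : List P) (hw : w.length ≤ r)
    (hv : v.length ≤ r) : (walk nb w x = walk nb v x ↔ walk nb w y = walk nb v y) :=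
  iff_of_eq (congrFun (congrFun (congrArg Prod.snd h) ⟨w, hw⟩) ⟨v, hv⟩)

theorem code_ext {nb : P → X → Option X} {c₁ c₂ : X → C} {r : ℕ} {x y : X}
    (h1 : ∀ w : List P, w.length ≤ r → (walk nb w x).map c₁ = (walk nb w y).map c₂)
    (h2 : ∀ w v : List P, w.length ≤ r → v.length ≤ r →
      (walk nb w x = walk nb v x ↔ walk nb w y = walk nb v y)) :
    code nb c₁ r x = code nb c₂ r y := by
  refine Prod.ext ?_ ?_
  · funext w
    exact h1 w.1 w.2
  · funext w v
    exact propext (h2 w.1 v.1 w.2 v.2)

theorem code_col_nil {nb : P → X → Option X} {c₁ c₂ : X → C} {r : ℕ} {x y : X}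
    (h : code nb c₁ r x = code nb c₂ r y) : c₁ x = c₂ y := by
  have := code_col h [] (by simp)
  simpa [walk] using this

theorem code_some {nb : P → X → Option X} {c₁ c₂ : X → C} {r : ℕ} {x y z : X}
    (h : code nb c₁ r x = code nb c₂ r y) (w : List P) (hw : w.length ≤ r)
    (hz : walk nb w x = some z) : ∃ z', walk nb w y = some z' ∧ c₁ z = c₂ z' := by
  have h1 := code_col h w hw
  rw [hz] at h1
  cases hy : walk nb w y with
  | none => rw [hy] at h1; simp at h1
  | some z' =>
    rw [hy] at h1
    exact ⟨z', rfl, by simpa using h1⟩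

theorem code_some' {nb : P → X → Option X} {c₁ c₂ : X → C} {r : ℕ} {x y z : X}
    (h : code nb c₁ r x = code nb c₂ r y) (w : List P) (hw : w.length ≤ r)
    (hz : walk nb w y = some z) : ∃ z', walk nb w x = some z' ∧ c₁ z' = c₂ z := by
  obtain ⟨z', h1, h2⟩ := code_some h.symm w hw hz
  exact ⟨z', h1, h2.symm⟩

/-- If `w` leads from `x` to `z` and from `y` to `z'`, balls of radius `r` around `z`, `z'`
are controlled by balls of radius `2 r`. -/
theorem code_walk {nb : P → X → Option X} {c₁ c₂ : X → C} {r : ℕ} {x y z z' : X}
    (h : code nb c₁ (2 * r) x = code nb c₂ (2 * r) y) (w : List P) (hw : w.length ≤ r)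
    (hz : walk nb w x = some z) (hz' : walk nb w y = some z') :
    code nb c₁ r z = code nb c₂ r z' := by
  apply code_ext
  · intro u hu
    rw [← walk_append_some hz, ← walk_append_some hz']
    exact code_col h (w ++ u) (by rw [List.length_append]; omega)
  · intro u v hu hv
    rw [← walk_append_some hz, ← walk_append_some hz', ← walk_append_some hz,
      ← walk_append_some hz']
    exact code_eq h (w ++ u) (w ++ v) (by rw [List.length_append]; omega)
      (by rw [List.length_append]; omega)

/-- Equivalence of tuples at radius `r`. -/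
def TEq (nb : P → X → Option X) (c₁ c₂ : X → C) (r : ℕ) {ι : Type} (x y : ι → X) : Prop :=
  (∀ i, code nb c₁ r (x i) = code nb c₂ r (y i)) ∧
    ∀ i j (w : List P), w.length ≤ r →
      (walk nb w (x i) = some (x j) ↔ walk nb w (y i) = some (y j))

/-- Number of cells with a given code. -/
noncomputable def cnt (nb : P → X → Option X) (col : X → C) (r : ℕ) (c : Code P C r) : ℕ :=
  Nat.card {x : X // code nb col r x = c}

theorem TEq.symm {nb : P → X → Option X} {c₁ c₂ : X → C} {r : ℕ} {ι : Type} {x y : ι → X}
    (h : TEq nb c₁ c₂ r x y) : TEq nb c₂ c₁ r y x :=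
  ⟨fun i => (h.1 i).symm, fun i j w hw => (h.2 i j w hw).symm⟩

/-- The extension step. -/
theorem ext_step [Finite P] [Finite X] {nb : P → X → Option X} {inv : P → P}
    (hi : IsInv nb inv) {c₁ c₂ : X → C} {r thr m : ℕ}
    (hc : ∀ c, min (cnt nb c₁ r c) thr = min (cnt nb c₂ r c) thr)
    (hthr : m * Nat.card (Wd P r) < thr) {x y : Fin m → X}
    (h : TEq nb c₁ c₂ (2 * r) x y) (z : X) :
    ∃ z', code nb c₁ r z = code nb c₂ r z' ∧
      ∀ i (w : List P), w.length ≤ r → (walk nb w (x i) = some z ↔ walk nb w (y i) = some z') := by
  classical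
  by_cases hnear : ∃ i, ∃ w : List P, w.length ≤ r ∧ walk nb w (x i) = some z
  · obtain ⟨i, w, hw, hwz⟩ := hnear
    obtain ⟨z', hz', -⟩ := code_some (h.1 i) w (by omega) hwz
    refine ⟨z', code_walk (h.1 i) w hw hwz hz', ?_⟩
    intro j u hu
    have hl : (w ++ rev inv u).length ≤ 2 * r := by
      rw [List.length_append, length_rev]; omega
    rw [walk_rev_iff hi u (x j) z, walk_rev_iff hi u (y j) z', ← walk_append_some hwz,
      ← walk_append_some hz']
    exact h.2 i j _ hl
  · by_contra hcon
    push Not at hcon
    set c := code nb c₁ r z with hcdef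
    -- every cell of the second side with code `c` is near the tuple
    have hnear2 : ∀ z' : X, code nb c₂ r z' = c →
        ∃ iw : Fin m × Wd P r, walk nb iw.2.1 (y iw.1) = some z' := by
      intro z' hz'
      obtain ⟨i, w, hw, hne⟩ := hcon z' hz'.symm
      by_cases h1 : walk nb w (y i) = some z'
      · exact ⟨(i, ⟨w, hw⟩), h1⟩
      · exfalso
        rcases hne with ⟨h2, -⟩ | ⟨h2, h3⟩
        · exact hnear ⟨i, w, hw, h2⟩
        · exact h1 h3
    choose f hf using hnear2
    let T₁ := {x : X // code nb c₁ r x = c}
    let T₂ := {x : X // code nb c₂ r x = c}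
    -- the map to pairs is injective
    have hinj : Function.Injective (fun t : T₂ => f t.1 t.2) := by
      intro a b hab
      have h1 := hf a.1 a.2
      have h2 := hf b.1 b.2
      have hab' : f a.1 a.2 = f b.1 b.2 := hab
      rw [hab'] at h1
      rw [h1] at h2
      exact Subtype.ext (by simpa using h2)
    have hcard : cnt nb c₂ r c ≤ m * Nat.card (Wd P r) := by
      have := Nat.card_le_card_of_injective _ hinj
      have h3 : Nat.card (Fin m × Wd P r) = m * Nat.card (Wd P r) := by
        rw [Nat.card_prod, Nat.card_fin]
      rw [h3] at this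
      exact this
    have hlt : cnt nb c₂ r c < thr := lt_of_le_of_lt hcard hthr
    have heq : cnt nb c₁ r c = cnt nb c₂ r c := by
      have := hc c
      rw [min_eq_left hlt.le] at this
      rcases min_choice (cnt nb c₁ r c) thr with h4 | h4
      · rw [h4] at this; exact this
      · rw [h4] at this; omega
    -- transfer back to the first side
    have hback : ∀ t : T₂, ∃ z₀ : X, walk nb (f t.1 t.2).2.1 (x (f t.1 t.2).1) = some z₀ ∧
        code nb c₁ r z₀ = c := by
      intro t
      obtain ⟨z₀, hz₀, -⟩ := code_some' (h.1 (f t.1 t.2).1) (f t.1 t.2).2.1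
        (by have := (f t.1 t.2).2.2; omega) (hf t.1 t.2)
      refine ⟨z₀, hz₀, ?_⟩
      rw [code_walk (h.1 (f t.1 t.2).1) (f t.1 t.2).2.1 (f t.1 t.2).2.2 hz₀ (hf t.1 t.2)]
      exact t.2
    choose g hg1 hg2 using hback
    let G : T₂ → T₁ := fun t => ⟨g t, hg2 t⟩
    have hGinj : Function.Injective G := by
      intro a b hab
      have hab' : g a = g b := congrArg Subtype.val hab
      have ha := hg1 a
      have hb := hg1 b
      rw [hab'] at ha
      set wa := (f a.1 a.2).2.1
      set wb := (f b.1 b.2).2.1
      have hwa : wa.length ≤ r := (f a.1 a.2).2.2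
      have hwb : wb.length ≤ r := (f b.1 b.2).2.2
      have h5 : walk nb (wa ++ rev inv wb) (x (f a.1 a.2).1) = some (x (f b.1 b.2).1) := by
        rw [walk_append_some ha]
        exact walk_rev hi _ _ _ hb
      have h6 := (h.2 (f a.1 a.2).1 (f b.1 b.2).1 (wa ++ rev inv wb)
        (by rw [List.length_append, length_rev]; omega)).1 h5
      rw [walk_append_some (hf a.1 a.2)] at h6
      rw [← walk_rev_iff hi] at h6
      have h7 := hf b.1 b.2
      rw [h7] at h6
      exact Subtype.ext (by simpa using h6.symm)
    have hfin : Finite T₁ := inferInstance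
    have hGsurj : Function.Surjective G := by
      have hcc : Nat.card T₂ = Nat.card T₁ := heq.symm
      exact (Nat.bijective_iff_injective_and_card G |>.2 ⟨hGinj, hcc⟩).2
    obtain ⟨t, ht⟩ := hGsurj ⟨z, hcdef.symm⟩
    have ht' : g t = z := congrArg Subtype.val ht
    apply hnear
    refine ⟨(f t.1 t.2).1, (f t.1 t.2).2.1, (f t.1 t.2).2.2, ?_⟩
    rw [hg1 t, ht']

/-- The extension step in terms of `Fin.snoc`. -/
theorem TEq.snoc {nb : P → X → Option X} {inv : P → P}
    (hi : IsInv nb inv) {c₁ c₂ : X → C} {r m : ℕ} {x y : Fin m → X}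
    (h : TEq nb c₁ c₂ (2 * r) x y) {z z' : X} (hz : code nb c₁ r z = code nb c₂ r z')
    (hw : ∀ i (w : List P), w.length ≤ r →
      (walk nb w (x i) = some z ↔ walk nb w (y i) = some z')) :
    TEq nb c₁ c₂ r (Fin.snoc x z : Fin (m + 1) → X) (Fin.snoc y z' : Fin (m + 1) → X) := by
  constructor
  · intro i
    refine Fin.lastCases ?_ (fun i => ?_) i
    · simpa using hz
    · simp only [Fin.snoc_castSucc]
      exact code_walk (h.1 i) [] (by simp) (walk_nil _ _) (walk_nil _ _)
  · intro i j
    refine Fin.lastCases ?_ (fun i => ?_) i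
    · refine Fin.lastCases ?_ (fun j => ?_) j
      · intro w hwl
        simp only [Fin.snoc_last]
        have := code_eq hz w [] hwl (by simp)
        simpa [walk_nil] using this
      · intro w hwl
        simp only [Fin.snoc_last, Fin.snoc_castSucc]
        rw [walk_rev_iff hi, walk_rev_iff hi w z' (y j)]
        exact hw j _ (by rw [length_rev]; exact hwl)
    · refine Fin.lastCases ?_ (fun j => ?_) j
      · intro w hwl
        simp only [Fin.snoc_last, Fin.snoc_castSucc]
        exact hw i w hwl
      · intro w hwl
        simp only [Fin.snoc_castSucc]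
        exact h.2 i j w (by omega)

end Pool.Agent.Lib.MP_46fb1e_lc
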