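import Mathlib
import Pool.Agent.Lib.MP_46fb1e_lc.Port
import Pool.Agent.Lib.MP_46fb1e_lc.EF

/-! Cell structures and their locality. -/

open FirstOrder FirstOrder.Language

namespace Pool.Agent.Lib.MP_46fb1e_lc

/-- A frame: cells `X`, ports `P`, a distinguished cell, edge labels `G` with directions, and
addresses of the elements of a gadget `Q`. -/
structure Frame (P X G Q Loc : Type) where
  nb : P → X → Option X
  star : X
  dir : G → Option (Option P)
  adr : G → Q → Option Bool × Loc

variable {P X G Q Loc : Type}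

/-- The target cell of an edge with label `g` at the cell `x`. -/
def Frame.tgt (F : Frame P X G Q Loc) (x : X) (g : G) : Option X :=
  match F.dir g with
  | none => some x
  | some none => some F.star
  | some (some p) => F.nb p x

/-- Resolve a relative address. -/
def Frame.res (F : Frame P X G Q Loc) (x y : X) : Option Bool → X
  | none => F.star
  | some false => x
  | some true => y

/-- The domain of the structure of a frame with active labels `κ`. -/
def Dom (_F : Frame P X G Q Loc) (_κ : X → Bool × Set G) : Type := X × Loc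

variable {L : FirstOrder.Language.{0, 0}}

/-- The structure of a frame: all images of the gadget under all active edges. -/
instance Dom.str [L.IsRelational] [L.Structure Q] (F : Frame P X G Q Loc)
    (κ : X → Bool × Set G) : L.Structure (Dom F κ) where
  funMap := fun f => isEmptyElim f
  RelMap := fun {n} R d => ∃ (x : X) (g : G) (y : X) (q : Fin n → Q),
    g ∈ (κ x).2 ∧ F.tgt x g = some y ∧ Structure.RelMap R q ∧
      ∀ j, d j = (F.res x y (F.adr g (q j)).1, (F.adr g (q j)).2)

/-- The colouring of the cells given by the active labels and a set of elements. -/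
def colo {F : Frame P X G Q Loc} {κ : X → Bool × Set G} (S : Set (Dom F κ)) (x : X) :
    (Bool × Set G) × Set Loc :=
  (κ x, {l | ((x, l) : X × Loc) ∈ S})

theorem relMap_substructure [L.IsRelational] {M : Type} [L.Structure M] (S : L.Substructure M)
    {n : ℕ} (R : L.Relations n) (x : Fin n → S) :
    Structure.RelMap R x ↔ Structure.RelMap R (fun i => (x i : M)) := Iff.rfl

/-- One direction of the atomic equivalence. -/
theorem atomic_one [Finite P] [Finite X] [L.IsRelational] [L.Structure Q]
    (F : Frame P X G Q Loc) {inv : P → P} (hi : IsInv F.nb inv)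
    {κ₁ κ₂ : X → Bool × Set G} (h₁ : ∀ x, (κ₁ x).1 = true ↔ x = F.star)
    (h₂ : ∀ x, (κ₂ x).1 = true ↔ x = F.star)
    (S₁ : L.Substructure (Dom F κ₁)) (S₂ : L.Substructure (Dom F κ₂))
    {thr : ℕ}
    (hc : ∀ c, min (cnt F.nb (colo (S₁ : Set (Dom F κ₁))) 1 c) thr =
      min (cnt F.nb (colo (S₂ : Set (Dom F κ₂))) 1 c) thr)
    {n : ℕ} (hthr : n * Nat.card (Wd P 1) < thr)
    (a : Fin n → S₁) (b : Fin n → S₂)
    (hl : ∀ i, (a i).1.2 = (b i).1.2)
    (h : TEq F.nb (colo (S₁ : Set (Dom F κ₁))) (colo (S₂ : Set (Dom F κ₂))) 2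
      (fun i => (a i).1.1) (fun i => (b i).1.1))
    {l : ℕ} (R : L.Relations l) (v : Fin l → Fin n)
    (hR : Structure.RelMap R (fun i => a (v i))) :
    Structure.RelMap R (fun i => b (v i)) := by
  obtain ⟨x, g, y, q, hg, hy, hq, hd⟩ := hR
  obtain ⟨x', hx', hpos⟩ := ext_step hi hc hthr (r := 1) (by simpa using h) x
  have hcol := code_col_nil hx'
  have hκ : κ₁ x = κ₂ x' := congrArg Prod.fst hcol
  -- the target in the second structure
  have hstar : ∀ i, (a i).1.1 = F.star → (b i).1.1 = F.star := by
    intro i hi1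
    have h3 := code_col_nil (h.1 i)
    have h4 : κ₁ (a i).1.1 = κ₂ (b i).1.1 := congrArg Prod.fst h3
    rw [← h₂, ← h4, h₁]
    exact hi1
  have hsrc : ∀ i, (a i).1.1 = x → (b i).1.1 = x' := by
    intro i hi1
    have h3 := (hpos i [] (by simp)).1 (by simp [walk_nil, hi1])
    simpa [walk_nil] using h3
  obtain ⟨y', hy', htgt⟩ : ∃ y', F.tgt x' g = some y' ∧
      ∀ i, (a i).1.1 = y → (b i).1.1 = y' := by
    cases hdir : F.dir g with
    | none =>
      refine ⟨x', by simp [Frame.tgt, hdir], ?_⟩
      have : y = x := by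
        have h5 := hy
        simp [Frame.tgt, hdir] at h5
        exact h5.symm
      rw [this]
      exact hsrc
    | some o =>
      cases o with
      | none =>
        refine ⟨F.star, by simp [Frame.tgt, hdir], ?_⟩
        have : y = F.star := by
          have h5 := hy
          simp [Frame.tgt, hdir] at h5
          exact h5.symm
        rw [this]
        exact hstar
      | some p =>
        have hyp : F.nb p x = some y := by
          have h5 := hy
          simpa [Frame.tgt, hdir] using h5
        have hw : walk F.nb [p] x = some y := by rw [walk_one, hyp]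
        obtain ⟨y', hy', -⟩ := code_some hx' [p] (by simp) hw
        rw [walk_one] at hy'
        refine ⟨y', by simp [Frame.tgt, hdir, hy'], ?_⟩
        intro i hi1
        have h6 : walk F.nb (rev inv [p]) (a i).1.1 = some x := by
          rw [hi1]
          exact walk_rev hi _ _ _ hw
        have h7 := (hpos i (rev inv [p]) (by simp [rev])).1 h6
        rw [← walk_rev_iff hi, walk_one, hy'] at h7
        simpa using h7.symm
  refine ⟨x', g, y', q, by rw [← hκ]; exact hg, hy', hq, ?_⟩
  intro j
  have hdj : (a (v j)).1 = (F.res x y (F.adr g (q j)).1, (F.adr g (q j)).2) := hd j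
  have hd1 : (a (v j)).1.1 = F.res x y (F.adr g (q j)).1 := congrArg Prod.fst hdj
  have hd2 : (a (v j)).1.2 = (F.adr g (q j)).2 := congrArg Prod.snd hdj
  change (b (v j)).1 = (F.res x' y' (F.adr g (q j)).1, (F.adr g (q j)).2)
  refine Prod.ext ?_ ?_
  · cases hw : (F.adr g (q j)).1 with
    | none =>
      rw [hw] at hd1
      exact hstar _ hd1
    | some o =>
      cases o with
      | false => rw [hw] at hd1; exact hsrc _ hd1
      | true => rw [hw] at hd1; exact htgt _ hd1
  · change (b (v j)).1.2 = (F.adr g (q j)).2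
    rw [← hl, hd2]

/-- Locality of first-order logic on cell structures. -/
theorem hanf [Finite P] [Finite X] [L.IsRelational] [L.Structure Q]
    (F : Frame P X G Q Loc) {inv : P → P} (hi : IsInv F.nb inv)
    {κ₁ κ₂ : X → Bool × Set G} (h₁ : ∀ x, (κ₁ x).1 = true ↔ x = F.star)
    (h₂ : ∀ x, (κ₂ x).1 = true ↔ x = F.star)
    (S₁ : L.Substructure (Dom F κ₁)) (S₂ : L.Substructure (Dom F κ₂))
    {thr qq : ℕ} (hthr : ∀ r ≤ 2 ^ qq, qq * Nat.card (Wd P r) < thr)
    (hc : ∀ r ≤ 2 ^ qq, ∀ c, min (cnt F.nb (colo (S₁ : Set (Dom F κ₁))) r c) thr =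
      min (cnt F.nb (colo (S₂ : Set (Dom F κ₂))) r c) thr)
    (f : L.BoundedFormula Empty 0) (hf : qd f ≤ qq) :
    f.Realize default (default : Fin 0 → S₁) ↔ f.Realize default (default : Fin 0 → S₂) := by
  have hpow : ∀ k, k ≤ qq → 2 ^ k ≤ 2 ^ qq := fun k hk => Nat.pow_le_pow_right (by norm_num) hk
  refine ef (fun k n a b => k + n ≤ qq ∧ (∀ i, (a i).1.2 = (b i).1.2) ∧
    TEq F.nb (colo (S₁ : Set (Dom F κ₁))) (colo (S₂ : Set (Dom F κ₂))) (2 ^ (k + 1))
      (fun i => (a i).1.1) (fun i => (b i).1.1)) ?_ ?_ ?_ ?_ f qq hf default default ?_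
  · rintro k n a b ⟨hk, hl, ht⟩ i j
    have h3 := ht.2 i j [] (by simp)
    simp only [walk_nil, Option.some.injEq] at h3
    constructor
    · intro hij
      apply Subtype.ext
      refine Prod.ext (h3.1 (by rw [hij])) ?_
      rw [← hl, ← hl, hij]
    · intro hij
      apply Subtype.ext
      refine Prod.ext (h3.2 (by rw [hij])) ?_
      rw [hl, hl, hij]
  · rintro k n a b ⟨hk, hl, ht⟩ l R v
    have ht2 : TEq F.nb (colo (S₁ : Set (Dom F κ₁))) (colo (S₂ : Set (Dom F κ₂))) 2
      (fun i => (a i).1.1) (fun i => (b i).1.1) := by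
      have h2k : 2 ≤ 2 ^ (k + 1) := by
        calc 2 = 2 ^ 1 := by norm_num
          _ ≤ 2 ^ (k + 1) := Nat.pow_le_pow_right (by norm_num) (by omega)
      constructor
      · intro i
        apply code_ext
        · intro w hw
          exact code_col (ht.1 i) w (by omega)
        · intro w v hw hv
          exact code_eq (ht.1 i) w v (by omega) (by omega)
      · intro i j w hw
        exact ht.2 i j w (by omega)
    have hone : 1 ≤ 2 ^ qq := Nat.one_le_two_pow
    have hcard : n * Nat.card (Wd P 1) < thr :=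
      lt_of_le_of_lt (Nat.mul_le_mul_right _ (by omega)) (hthr 1 hone)
    constructor
    · exact atomic_one F hi h₁ h₂ S₁ S₂ (hc 1 hone) hcard a b hl ht2 R v
    · exact atomic_one F hi h₂ h₁ S₂ S₁ (fun c => (hc 1 hone c).symm) hcard b a
        (fun i => (hl i).symm) ht2.symm R v
  · rintro k n a b ⟨hk, hl, ht⟩ x
    have hr : 2 ^ (k + 1) ≤ 2 ^ qq := hpow _ (by omega)
    have ht' : TEq F.nb (colo (S₁ : Set (Dom F κ₁))) (colo (S₂ : Set (Dom F κ₂)))
        (2 * 2 ^ (k + 1)) (fun i => (a i).1.1) (fun i => (b i).1.1) := by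
      rw [← pow_succ']
      exact ht
    obtain ⟨z', hz', hpos⟩ := ext_step hi (hc _ hr)
      (lt_of_le_of_lt (Nat.mul_le_mul_right _ (by omega)) (hthr _ hr)) ht' x.1.1
    have hmem : ((z', x.1.2) : X × Loc) ∈ (S₂ : Set (Dom F κ₂)) := by
      have h5 := congrArg Prod.snd (code_col_nil hz')
      have h6 : x.1.2 ∈ (colo (S₁ : Set (Dom F κ₁)) x.1.1).2 := x.2
      rw [h5] at h6
      exact h6
    refine ⟨⟨(z', x.1.2), hmem⟩, by omega, ?_, ?_⟩
    · intro i
      refine Fin.lastCases ?_ (fun i => ?_) i
      · simp only [Fin.snoc_last]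
      · simp only [Fin.snoc_castSucc]
        exact hl i
    · have h7 := TEq.snoc hi ht' hz' hpos
      convert h7 using 1
      · funext i
        refine Fin.lastCases ?_ (fun i => ?_) i
        · simp only [Fin.snoc_last]
        · simp only [Fin.snoc_castSucc]
      · funext i
        refine Fin.lastCases ?_ (fun i => ?_) i
        · simp only [Fin.snoc_last]
        · simp only [Fin.snoc_castSucc]
  · rintro k n a b ⟨hk, hl, ht⟩ y
    have hr : 2 ^ (k + 1) ≤ 2 ^ qq := hpow _ (by omega)
    have ht' : TEq F.nb (colo (S₂ : Set (Dom F κ₂))) (colo (S₁ : Set (Dom F κ₁)))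
        (2 * 2 ^ (k + 1)) (fun i => (b i).1.1) (fun i => (a i).1.1) := by
      rw [← pow_succ']
      exact ht.symm
    obtain ⟨z', hz', hpos⟩ := ext_step hi (fun c => (hc _ hr c).symm)
      (lt_of_le_of_lt (Nat.mul_le_mul_right _ (by omega)) (hthr _ hr)) ht' y.1.1
    have hmem : ((z', y.1.2) : X × Loc) ∈ (S₁ : Set (Dom F κ₁)) := by
      have h5 := congrArg Prod.snd (code_col_nil hz')
      have h6 : y.1.2 ∈ (colo (S₂ : Set (Dom F κ₂)) y.1.1).2 := y.2
      rw [h5] at h6
      exact h6
    refine ⟨⟨(z', y.1.2), hmem⟩, by omega, ?_, ?_⟩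
    · intro i
      refine Fin.lastCases ?_ (fun i => ?_) i
      · simp only [Fin.snoc_last]
      · simp only [Fin.snoc_castSucc]
        exact hl i
    · have h7 := (TEq.snoc hi ht' hz' hpos).symm
      convert h7 using 1
      · funext i
        refine Fin.lastCases ?_ (fun i => ?_) i
        · simp only [Fin.snoc_last]
        · simp only [Fin.snoc_castSucc]
      · funext i
        refine Fin.lastCases ?_ (fun i => ?_) i
        · simp only [Fin.snoc_last]
        · simp only [Fin.snoc_castSucc]
  · refine ⟨by omega, fun i => i.elim0, fun i => i.elim0, fun i => i.elim0⟩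

end Pool.Agent.Lib.MP_46fb1e_lc
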