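import Mathlib
import Pool.Agent.Lib.MP_46fb1e_lc.Defs

/-!
Gadget replacement for a pp-construction of the triangle.
-/

set_option autoImplicit false

namespace Pool.Agent.Lib.MP_46fb1e_lc

open FirstOrder FirstOrder.Language FirstOrder.Language.Structure

/-- a digraph on the vertex set `V` with arc set `A` -/
structure DG (V A : Type) where
  src : A → V
  tgt : A → V

section gadget

variable {L : FirstOrder.Language.{0, 0}} {B : Type} [L.Structure B] {d : ℕ} {Γ : Type}
  [L.Structure Γ] (p q : Fin d → Γ)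

/-- coordinates that are forced to coincide -/
def crel (k k' : Fin d) : Prop := p k = p k' ∨ q k = q k' ∨ p k = q k'

/-- classes of coordinates -/
abbrev Cls : Type := Quot (crel p q)

/-- classes shared by all vertices -/
def glob (K : Cls p q) : Prop := ∃ k k', p k = q k' ∧ Quot.mk (crel p q) k = K

variable {p q}

section val

variable {f : Fin 3 → Fin d → B} (hf : ∀ a b, a ≠ b → PowArc L B Γ p q (f a) (f b))

lemma third (a b : Fin 3) : ∃ c : Fin 3, c ≠ a ∧ c ≠ b := by
  revert a b; decide

include hf in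
lemma val_wd (a : Fin 3) (k k' : Fin d) (h : crel p q k k') : f a k = f a k' := by
  obtain ⟨b, hba, -⟩ := third a a
  rcases h with h | h | h
  · obtain ⟨g, h1, -⟩ := hf a b hba.symm
    rw [← h1 k, ← h1 k', h]
  · obtain ⟨g, -, h1⟩ := hf b a hba
    rw [← h1 k, ← h1 k', h]
  · have key : ∀ a b, a ≠ b → f a k = f b k' := by
      intro a b hab
      obtain ⟨g, h1, h2⟩ := hf a b hab
      rw [← h1 k, ← h2 k', h]
    obtain ⟨c, hca, hcb⟩ := third a b
    rw [key a b hba.symm, ← key c b hcb, key c a hca]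

/-- value of a class at a colour -/
def val (a : Fin 3) (K : Cls p q) : B := Quot.lift (f a) (val_wd hf a) K

lemma val_mk (a : Fin 3) (k : Fin d) : val hf a (Quot.mk _ k) = f a k := rfl

lemma val_glob (a b : Fin 3) {K : Cls p q} (hK : glob p q K) : val hf a K = val hf b K := by
  obtain ⟨k, k', h, rfl⟩ := hK
  rw [val_mk, val_mk]
  have key : ∀ a b, a ≠ b → f a k = f b k' := by
    intro a b hab
    obtain ⟨g, h1, h2⟩ := hf a b hab
    rw [← h1 k, ← h2 k', h]
  obtain ⟨c, hca, hcb⟩ := third a b
  rw [key a c hca.symm, key b c hcb.symm]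

end val

variable (p q)

/-- the domain of the gadget replacement of a digraph -/
inductive GI {V A : Type} (D : DG V A) : Type
  | gl (K : Cls p q) : GI D
  | vt (u : V) (K : Cls p q) : GI D
  | inn (e : A) (γ : Γ) : GI D

variable {p q}
variable {V A : Type} (D : DG V A)

open Classical in
/-- the element representing a class at a vertex -/
noncomputable def elt (u : V) (K : Cls p q) : GI p q D :=
  if glob p q K then GI.gl K else GI.vt u K

open Classical in
/-- the copy of the gadget at an arc -/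
noncomputable def io (e : A) (γ : Γ) : GI p q D :=
  if h : ∃ k, p k = γ then elt D (D.src e) (Quot.mk _ h.choose)
  else if h : ∃ k, q k = γ then elt D (D.tgt e) (Quot.mk _ h.choose)
  else GI.inn e γ

lemma io_p (e : A) (k : Fin d) : io (p := p) (q := q) D e (p k) = elt D (D.src e) (Quot.mk _ k) := by
  have h : ∃ k', p k' = p k := ⟨k, rfl⟩
  rw [io, dif_pos h]
  congr 1
  exact Quot.sound (Or.inl h.choose_spec)

lemma io_q (e : A) (k : Fin d) : io (p := p) (q := q) D e (q k) = elt D (D.tgt e) (Quot.mk _ k) := by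
  by_cases h : ∃ k', p k' = q k
  · rw [io, dif_pos h]
    have h1 : (Quot.mk (crel p q) h.choose) = Quot.mk _ k :=
      Quot.sound (Or.inr (Or.inr h.choose_spec))
    have h2 : glob p q (Quot.mk (crel p q) k) := ⟨h.choose, k, h.choose_spec, h1⟩
    rw [h1, elt, elt, if_pos h2, if_pos h2]
  · have h' : ∃ k', q k' = q k := ⟨k, rfl⟩
    rw [io, dif_neg h, dif_pos h']
    congr 1
    exact Quot.sound (Or.inr (Or.inl h'.choose_spec))

lemma io_inner (e : A) {γ : Γ} (h1 : ¬ ∃ k, p k = γ) (h2 : ¬ ∃ k, q k = γ) :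
    io (p := p) (q := q) D e γ = GI.inn e γ := by
  rw [io, dif_neg h1, dif_neg h2]

variable [L.IsRelational]

noncomputable instance : L.Structure (GI p q D) where
  funMap := fun f _ => isEmptyElim f
  RelMap := fun {n} R x => ∃ (e : A) (y : Fin n → Γ), RelMap R y ∧ x = fun i => io D e (y i)

lemma relMap_GI {n : ℕ} (R : L.Relations n) (x : Fin n → GI p q D) :
    RelMap R x ↔ ∃ (e : A) (y : Fin n → Γ), RelMap R y ∧ x = fun i => io D e (y i) := Iff.rfl

/-- a 3-colouring of the digraph gives a homomorphism -/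
theorem hom_of_col {f : Fin 3 → Fin d → B} (hf : ∀ a b, a ≠ b → PowArc L B Γ p q (f a) (f b))
    (χ : V → Fin 3) (hχ : ∀ e, χ (D.src e) ≠ χ (D.tgt e)) : Nonempty (GI p q D →[L] B) := by
  classical
  choose h hp hq using fun e : A => hf _ _ (hχ e)
  let H : GI p q D → B := fun x => match x with
    | GI.gl K => val hf 0 K
    | GI.vt u K => val hf (χ u) K
    | GI.inn e γ => h e γ
  have hH : ∀ u K, H (elt D u K) = val hf (χ u) K := by
    intro u K
    unfold elt
    split_ifs with hg
    · exact val_glob hf _ _ hg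
    · rfl
  have hio : ∀ e γ, H (io D e γ) = h e γ := by
    intro e γ
    by_cases h1 : ∃ k, p k = γ
    · obtain ⟨k, rfl⟩ := h1
      rw [io_p, hH, val_mk, hp]
    · by_cases h2 : ∃ k, q k = γ
      · obtain ⟨k, rfl⟩ := h2
        rw [io_q, hH, val_mk, hq]
      · rw [io_inner D e h1 h2]
  refine ⟨⟨H, fun {n} f _ => isEmptyElim f, fun {n} R x hx => ?_⟩⟩
  obtain ⟨e, y, hy, rfl⟩ := hx
  have : H ∘ (fun i => io D e (y i)) = h e ∘ y := funext fun i => hio e (y i)
  rw [this]
  exact (h e).map_rel R y hy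

/-- a homomorphism gives a 3-colouring of the digraph -/
theorem col_of_hom {g : (Fin d → B) → Fin 3} (hg : ∀ x y, PowArc L B Γ p q x y → g x ≠ g y)
    (H : GI p q D →[L] B) : ∃ χ : V → Fin 3, ∀ e, χ (D.src e) ≠ χ (D.tgt e) := by
  refine ⟨fun u => g (fun k => H (elt D u (Quot.mk _ k))), fun e => hg _ _ ?_⟩
  refine ⟨⟨fun γ => H (io D e γ), fun {n} f _ => isEmptyElim f, fun {n} R y hy => ?_⟩,
    fun k => ?_, fun k => ?_⟩
  · exact H.map_rel R (fun i => io D e (y i)) ⟨e, y, hy, rfl⟩
  · change H (io D e (p k)) = _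
    rw [io_p]
  · change H (io D e (q k)) = _
    rw [io_q]

instance [Finite Γ] [Finite V] [Finite A] : Finite (GI p q D) := by
  let f : GI p q D → Cls p q ⊕ (V × Cls p q) ⊕ (A × Γ) := fun x => match x with
    | GI.gl K => Sum.inl K
    | GI.vt u K => Sum.inr (Sum.inl (u, K))
    | GI.inn e γ => Sum.inr (Sum.inr (e, γ))
  refine Finite.of_injective f ?_
  intro x y h
  cases x <;> cases y <;> simp_all [f]

end gadget

end Pool.Agent.Lib.MP_46fb1e_lc
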