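import Mathlib
import Pool.Agent.Lib.MP_46fb1e_lc.Gadget

/-!
The graphs: `m` wires of even length `n`; on the left the bit vector on the wires is forced not to
be monotone, on the right it is forced to be monotone.
-/

set_option autoImplicit false

namespace Pool.Agent.Lib.MP_46fb1e_lc

/-- vertices -/
inductive Vt (m n : ℕ) : Type
  | col (i : Fin 3) : Vt m n
  | w (k : Fin m) (t : Fin (n + 1)) : Vt m n
  | ng (a : Fin m → Bool) (k : Fin m) : Vt m n
  | p (a : Fin m → Bool) (k : Fin m) : Vt m n
  | q (a : Fin m → Bool) (k : Fin m) : Vt m n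
  | c (a : Fin m → Bool) (j : Fin (m + 1)) : Vt m n

/-- arcs -/
inductive At (m n : ℕ) : Type
  | tri (i : Fin 3) : At m n
  | wn (k : Fin m) (t : Fin (n + 1)) : At m n
  | wl (k : Fin m) (t : Fin n) : At m n
  | ngn (a : Fin m → Bool) (k : Fin m) : At m n
  | ngw (a : Fin m → Bool) (k : Fin m) : At m n
  | pq (a : Fin m → Bool) (k : Fin m) : At m n
  | qc (a : Fin m → Bool) (k : Fin m) : At m n
  | cp (a : Fin m → Bool) (k : Fin m) : At m n
  | pc (a : Fin m → Bool) (k : Fin m) : At m n
  | ql (a : Fin m → Bool) (k : Fin m) : At m n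
  | ct (a : Fin m → Bool) : At m n
  | cn (a : Fin m → Bool) : At m n
  | cf (a : Fin m → Bool) : At m n

instance (m n : ℕ) : Finite (Vt m n) := by
  let f : Vt m n → Fin 3 ⊕ (Fin m × Fin (n + 1)) ⊕ (Fin 3 × (Fin m → Bool) × Fin m) ⊕
      ((Fin m → Bool) × Fin (m + 1)) := fun x => match x with
    | Vt.col i => Sum.inl i
    | Vt.w k t => Sum.inr (Sum.inl (k, t))
    | Vt.ng a k => Sum.inr (Sum.inr (Sum.inl (0, a, k)))
    | Vt.p a k => Sum.inr (Sum.inr (Sum.inl (1, a, k)))
    | Vt.q a k => Sum.inr (Sum.inr (Sum.inl (2, a, k)))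
    | Vt.c a j => Sum.inr (Sum.inr (Sum.inr (a, j)))
  refine Finite.of_injective f ?_
  intro x y h
  cases x <;> cases y <;> simp_all [f]

instance (m n : ℕ) : Finite (At m n) := by
  let f : At m n → Fin 3 ⊕ (Fin m × Fin (n + 1)) ⊕ (Fin m × Fin n) ⊕
      (Fin 7 × (Fin m → Bool) × Fin m) ⊕ (Fin 3 × (Fin m → Bool)) := fun x => match x with
    | At.tri i => Sum.inl i
    | At.wn k t => Sum.inr (Sum.inl (k, t))
    | At.wl k t => Sum.inr (Sum.inr (Sum.inl (k, t)))
    | At.ngn a k => Sum.inr (Sum.inr (Sum.inr (Sum.inl (0, a, k))))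
    | At.ngw a k => Sum.inr (Sum.inr (Sum.inr (Sum.inl (1, a, k))))
    | At.pq a k => Sum.inr (Sum.inr (Sum.inr (Sum.inl (2, a, k))))
    | At.qc a k => Sum.inr (Sum.inr (Sum.inr (Sum.inl (3, a, k))))
    | At.cp a k => Sum.inr (Sum.inr (Sum.inr (Sum.inl (4, a, k))))
    | At.pc a k => Sum.inr (Sum.inr (Sum.inr (Sum.inl (5, a, k))))
    | At.ql a k => Sum.inr (Sum.inr (Sum.inr (Sum.inl (6, a, k))))
    | At.ct a => Sum.inr (Sum.inr (Sum.inr (Sum.inr (0, a))))
    | At.cn a => Sum.inr (Sum.inr (Sum.inr (Sum.inr (1, a))))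
    | At.cf a => Sum.inr (Sum.inr (Sum.inr (Sum.inr (2, a))))
  refine Finite.of_injective f ?_
  intro x y h
  cases x <;> cases y <;> simp_all [f]

section graph

variable {m n : ℕ}

open Classical in
/-- monotone vectors are excluded on the left, the others on the right -/
noncomputable def endp (n : ℕ) (a : Fin m → Bool) : Fin (n + 1) :=
  if Monotone a then 0 else Fin.last n

/-- the literal which says that the `k`-th bit differs from `a k` -/
noncomputable def lit (a : Fin m → Bool) (k : Fin m) : Vt m n :=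
  if a k then Vt.ng a k else Vt.w k (endp n a)

/-- sources -/
def srcG : At m n → Vt m n
  | At.tri i => Vt.col i
  | At.wn k t => Vt.w k t
  | At.wl k t => Vt.w k t.castSucc
  | At.ngn a k => Vt.ng a k
  | At.ngw a k => Vt.ng a k
  | At.pq a k => Vt.p a k
  | At.qc a k => Vt.q a k
  | At.cp a k => Vt.c a k.succ
  | At.pc a k => Vt.p a k
  | At.ql a k => Vt.q a k
  | At.ct a => Vt.c a 0
  | At.cn a => Vt.c a 0
  | At.cf a => Vt.c a (Fin.last m)

/-- targets; the wires are permuted by `σ` right after position `0` -/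
noncomputable def tgtG (σ : Equiv.Perm (Fin m)) : At m n → Vt m n
  | At.tri i => Vt.col (i + 1)
  | At.wn _ _ => Vt.col 2
  | At.wl k t => if t.val = 0 then Vt.w (σ k) t.succ else Vt.w k t.succ
  | At.ngn _ _ => Vt.col 2
  | At.ngw a k => Vt.w k (endp n a)
  | At.pq a k => Vt.q a k
  | At.qc a k => Vt.c a k.succ
  | At.cp a k => Vt.p a k
  | At.pc a k => Vt.c a k.castSucc
  | At.ql a k => lit a k
  | At.ct _ => Vt.col 0
  | At.cn _ => Vt.col 2
  | At.cf _ => Vt.col 1

/-- the graph -/
noncomputable def Gr (m n : ℕ) (σ : Equiv.Perm (Fin m)) : DG (Vt m n) (At m n) where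
  src := srcG
  tgt := tgtG σ

lemma f3_two {x T F N : Fin 3} (h1 : T ≠ F) (h2 : T ≠ N) (h3 : F ≠ N) (hx : x ≠ N) :
    x = T ∨ x = F := by
  revert x T F N; decide

lemma f3_one {x T F N : Fin 3} (h1 : T ≠ F) (h2 : T ≠ N) (h3 : F ≠ N) (hx : x ≠ N) (hx' : x ≠ T) :
    x = F := by
  revert x T F N; decide

lemma f3_or {a b p q c F : Fin 3} (ha : a = F) (hb : b = F) (h1 : p ≠ a) (h2 : q ≠ b) (h3 : p ≠ q)
    (h4 : q ≠ c) (h5 : c ≠ p) : c = F := by
  rw [ha] at h1
  rw [hb] at h2
  clear ha hb
  revert p q c F; decide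

lemma f3_eq {x y z N : Fin 3} (h : x ≠ z) (h' : x ≠ y) (hx : x ≠ N) (hy : y ≠ N) (hz : z ≠ N) :
    y = z := by
  revert x y z N; decide

/-- the unpermuted graph is not 3-colourable -/
theorem no_col (hn : Even n) :
    ¬ ∃ χ : Vt m n → Fin 3, ∀ e, χ ((Gr m n 1).src e) ≠ χ ((Gr m n 1).tgt e) := by
  rintro ⟨χ, hχ⟩
  set T := χ (Vt.col 0) with hT
  set F := χ (Vt.col 1) with hF
  set N := χ (Vt.col 2) with hN
  have hTF : T ≠ F := hχ (At.tri 0)
  have hFN : F ≠ N := hχ (At.tri 1)
  have hTN : T ≠ N := (hχ (At.tri 2)).symm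
  have hw : ∀ k t, χ (Vt.w k t) ≠ N := fun k t => hχ (At.wn k t)
  have hl : ∀ k (t : Fin n), χ (Vt.w k t.castSucc) ≠ χ (Vt.w k t.succ) := by
    intro k t
    have := hχ (At.wl k t)
    simp only [Gr, srcG, tgtG, Equiv.Perm.coe_one, id, ite_self] at this
    exact this
  have hpar : ∀ k (t : ℕ) (ht : t < n + 1), (Even t → χ (Vt.w k ⟨t, ht⟩) = χ (Vt.w k 0)) ∧
      (¬ Even t → χ (Vt.w k ⟨t, ht⟩) ≠ χ (Vt.w k 0)) := by
    intro k t
    induction t with
    | zero => intro ht; exact ⟨fun _ => rfl, fun h => absurd Even.zero h⟩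
    | succ t ih =>
      intro ht
      have h1 := ih (by omega)
      have h2 := hl k ⟨t, by omega⟩
      have e1 : (⟨t, by omega⟩ : Fin n).castSucc = (⟨t, by omega⟩ : Fin (n + 1)) := rfl
      have e2 : (⟨t, by omega⟩ : Fin n).succ = (⟨t + 1, ht⟩ : Fin (n + 1)) := rfl
      rw [e1, e2] at h2
      constructor
      · intro he
        have ho : ¬ Even t := by
          rw [Nat.even_add_one] at he; exact he
        have h3 := h1.2 ho
        have a1 := hw k ⟨t, by omega⟩
        have a2 := hw k ⟨t + 1, ht⟩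
        have a3 := hw k 0
        exact f3_eq h3 h2 a1 a2 a3
      · intro he
        have ho : Even t := by
          rw [Nat.even_add_one, not_not] at he; exact he
        rw [← h1.1 ho]
        exact h2.symm
  set a : Fin m → Bool := fun k => decide (χ (Vt.w k 0) = T) with ha
  have hend : ∀ k, χ (Vt.w k (endp n a)) = χ (Vt.w k 0) := by
    intro k
    unfold endp
    split_ifs
    · rfl
    · exact (hpar k n (by omega)).1 hn
  have hlit : ∀ k, χ (lit a k) = F := by
    intro k
    unfold lit
    have h1 : χ (Vt.ng a k) ≠ N := hχ (At.ngn a k)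
    have h2 : χ (Vt.ng a k) ≠ χ (Vt.w k (endp n a)) := hχ (At.ngw a k)
    rw [hend] at h2
    by_cases hk : χ (Vt.w k 0) = T
    · have : a k = true := by simp [ha, hk]
      rw [if_pos this]
      rw [hk] at h2
      exact f3_one hTF hTN hFN h1 h2
    · have : ¬ (a k = true) := by simp [ha, hk]
      rw [if_neg this, hend]
      exact f3_one hTF hTN hFN (hw k 0) hk
  have hc : ∀ j (hj : j < m + 1), χ (Vt.c a ⟨j, hj⟩) = F := by
    intro j
    induction j with
    | zero =>
      intro hj
      have h1 : χ (Vt.c a 0) ≠ T := hχ (At.ct a)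
      have h2 : χ (Vt.c a 0) ≠ N := hχ (At.cn a)
      exact f3_one hTF hTN hFN h2 h1
    | succ j ih =>
      intro hj
      have h0 := ih (by omega)
      set k : Fin m := ⟨j, by omega⟩ with hk
      have e1 : k.castSucc = (⟨j, by omega⟩ : Fin (m + 1)) := rfl
      have e2 : k.succ = (⟨j + 1, hj⟩ : Fin (m + 1)) := rfl
      have b1 : χ (Vt.p a k) ≠ χ (Vt.c a k.castSucc) := hχ (At.pc a k)
      have b2 : χ (Vt.q a k) ≠ χ (lit a k) := hχ (At.ql a k)
      have b3 : χ (Vt.p a k) ≠ χ (Vt.q a k) := hχ (At.pq a k)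
      have b4 : χ (Vt.q a k) ≠ χ (Vt.c a k.succ) := hχ (At.qc a k)
      have b5 : χ (Vt.c a k.succ) ≠ χ (Vt.p a k) := hχ (At.cp a k)
      rw [← e2]
      exact f3_or h0 (hlit k) b1 b2 b3 b4 b5
  exact hχ (At.cf a) (hc m (by omega))

/-- colour of a bit -/
def bc (b : Bool) : Fin 3 := if b then 0 else 1

lemma bc_ne_two (b : Bool) : bc b ≠ 2 := by cases b <;> decide

lemma bc_not (b : Bool) : bc b ≠ bc (!b) := by cases b <;> decide

/-- the graph with two wires swapped is 3-colourable -/
theorem col_swap (hn : Even n) (hn0 : n ≠ 0) {i j : Fin m} (hij : i < j) :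
    ∃ χ : Vt m n → Fin 3, ∀ e, χ ((Gr m n (Equiv.swap i j)).src e) ≠
      χ ((Gr m n (Equiv.swap i j)).tgt e) := by
  classical
  set σ := Equiv.swap i j with hσ
  set y : Fin m → Bool := fun k => decide (j ≤ k) with hy
  set x : Fin m → Bool := fun k => y (σ k) with hx
  have hym : Monotone y := by
    intro a b hab
    simp only [hy]
    by_cases h : j ≤ a
    · simp [h, h.trans hab]
    · simp [h]
  have hxm : ¬ Monotone x := by
    intro h
    have := h hij.le
    simp only [hx, hσ, Equiv.swap_apply_left, Equiv.swap_apply_right, hy] at this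
    simp only [le_refl, decide_true, hij.not_ge, decide_false] at this
    exact absurd this (by decide)
  let z : (Fin m → Bool) → Fin m → Bool := fun a => if Monotone a then x else y
  let C : (Fin m → Bool) → ℕ → Bool := fun a j => decide (∃ k : Fin m, k.val < j ∧ a k ≠ z a k)
  let χ : Vt m n → Fin 3 := fun v => match v with
    | Vt.col i => i
    | Vt.w k t => if t.val = 0 then bc (x k) else if Even t.val then bc (y k) else bc (!(y k))
    | Vt.ng a k => bc (!(z a k))
    | Vt.p a k => if C a k.val then 1 else if a k ≠ z a k then 2 else 0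
    | Vt.q a k => if (!(C a k.val)) ∧ a k ≠ z a k then 1 else 2
    | Vt.c a j => bc (C a j.val)
  have hend : ∀ a k, χ (Vt.w k (endp n a)) = bc (z a k) := by
    intro a k
    unfold endp
    by_cases h : Monotone a
    · simp [χ, z, h]
    · simp [χ, z, h, hn, hn0]
  have hlit : ∀ a k, χ (lit a k) = bc (decide (a k ≠ z a k)) := by
    intro a k
    unfold lit
    by_cases h : a k = true
    · rw [if_pos h]
      change bc (!(z a k)) = _
      rw [h]
      cases z a k <;> rfl
    · rw [if_neg h, hend]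
      have h' : a k = false := by simpa using h
      rw [h']
      cases z a k <;> rfl
  have hC0 : ∀ a, C a 0 = false := by
    intro a
    simp [C]
  have hCs : ∀ a (k : Fin m), C a (k.val + 1) = (C a k.val || decide (a k ≠ z a k)) := by
    intro a k
    simp only [C]
    rw [Bool.eq_iff_iff]
    simp only [decide_eq_true_eq, Bool.or_eq_true]
    constructor
    · rintro ⟨l, hl, h⟩
      rcases Nat.lt_succ_iff_lt_or_eq.mp hl with h1 | h1
      · exact Or.inl ⟨l, h1, h⟩
      · have : l = k := Fin.ext h1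
        subst this
        exact Or.inr h
    · rintro (⟨l, hl, h⟩ | h)
      · exact ⟨l, by omega, h⟩
      · exact ⟨k, by omega, h⟩
  have hCm : ∀ a, C a m = true := by
    intro a
    simp only [C, decide_eq_true_eq]
    by_contra hcon
    push Not at hcon
    have haz : a = z a := funext fun k => hcon k k.isLt
    by_cases h : Monotone a
    · have : z a = x := by simp [z, h]
      rw [this] at haz
      exact hxm (haz ▸ h)
    · have : z a = y := by simp [z, h]
      rw [this] at haz
      exact h (haz ▸ hym)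
  refine ⟨χ, fun e => ?_⟩
  cases e with
  | tri i =>
    change i ≠ i + 1
    revert i; decide
  | wn k t =>
    change χ (Vt.w k t) ≠ 2
    simp only [χ]
    split_ifs <;> exact bc_ne_two _
  | wl k t =>
    change χ (Vt.w k t.castSucc) ≠ χ (if t.val = 0 then Vt.w (σ k) t.succ else Vt.w k t.succ)
    by_cases h : t.val = 0
    · rw [if_pos h]
      simp only [χ, Fin.val_castSucc, h, if_true, Fin.val_succ]
      simpa [hx] using bc_not (x k)
    · rw [if_neg h]
      simp only [χ, Fin.val_castSucc, h, if_false, Fin.val_succ]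
      by_cases he : Even t.val
      · have : ¬ Even (t.val + 1) := by rw [Nat.even_add_one, not_not]; exact he
        simpa [he, this] using bc_not (y k)
      · have : Even (t.val + 1) := by rw [Nat.even_add_one]; exact he
        simpa [he, this] using (bc_not (y k)).symm
  | ngn a k =>
    change bc _ ≠ 2
    exact bc_ne_two _
  | ngw a k =>
    change bc _ ≠ χ (Vt.w k (endp n a))
    rw [hend]
    exact (bc_not _).symm
  | pq a k =>
    change (if C a k.val then (1 : Fin 3) else if a k ≠ z a k then 2 else 0) ≠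
      (if (!(C a k.val)) ∧ a k ≠ z a k then 1 else 2)
    by_cases h1 : C a k.val = true <;> by_cases h2 : a k ≠ z a k <;> simp_all
  | qc a k =>
    change (if (!(C a k.val)) ∧ a k ≠ z a k then (1 : Fin 3) else 2) ≠ bc (C a (k.val + 1))
    rw [hCs]
    by_cases h1 : C a k.val = true <;> by_cases h2 : a k ≠ z a k <;> simp_all [bc]
  | cp a k =>
    change bc (C a (k.val + 1)) ≠ (if C a k.val then (1 : Fin 3) else if a k ≠ z a k then 2 else 0)
    rw [hCs]
    by_cases h1 : C a k.val = true <;> by_cases h2 : a k ≠ z a k <;> simp_all [bc]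
  | pc a k =>
    change (if C a k.val then (1 : Fin 3) else if a k ≠ z a k then 2 else 0) ≠ bc (C a k.val)
    by_cases h1 : C a k.val = true <;> by_cases h2 : a k ≠ z a k <;> simp_all [bc]
  | ql a k =>
    change (if (!(C a k.val)) ∧ a k ≠ z a k then (1 : Fin 3) else 2) ≠ χ (lit a k)
    rw [hlit]
    by_cases h1 : C a k.val = true <;> by_cases h2 : a k ≠ z a k <;> simp_all [bc]
  | ct a =>
    change bc (C a 0) ≠ 0
    rw [hC0]; decide
  | cn a =>
    change bc (C a 0) ≠ 2
    exact bc_ne_two _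
  | cf a =>
    change bc (C a m) ≠ 1
    rw [hCm]; decide

end graph

end Pool.Agent.Lib.MP_46fb1e_lc
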