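import Mathlib

/-!
The sliding cut lemma: two relational structures which agree up to a cut that can be moved along a
long wire satisfy the same sentences.
-/

set_option autoImplicit false

namespace Pool.Agent.Lib.MP_46fb1e_lc

open FirstOrder FirstOrder.Language FirstOrder.Language.Structure

/-- data for the sliding cut argument -/
structure Slide (L : FirstOrder.Language.{0, 0}) (M N : Type) [L.Structure M] [L.Structure N]
    (top : ℕ) where
  pos : M → Option ℕ
  posN : N → Option ℕ
  th : ℕ → M ≃ N
  pos_th : ∀ c x, posN (th c x) = pos x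
  agree : ∀ c c', c ≤ c' → ∀ x, (∀ t, pos x = some t → t ≤ c ∨ c' < t) → th c x = th c' x
  rel : ∀ c, c ≤ top → ∀ (l : ℕ) (R : L.Relations l) (x : Fin l → M),
    (∀ k, pos (x k) ≠ some c ∧ pos (x k) ≠ some (c + 1)) →
      (RelMap R x ↔ RelMap R (fun k => th c (x k)))

/-- the position is at distance more than `D` from `c` -/
def Far (c D : ℕ) (o : Option ℕ) : Prop := ∀ t, o = some t → t + D < c ∨ c + D < t

lemma Far.mono {c D D' : ℕ} {o : Option ℕ} (h : Far c D o) (hD : D' ≤ D) : Far c D' o :=
  fun t ht => by rcases h t ht with h | h <;> omega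

lemma term_eq_var {L : FirstOrder.Language.{0, 0}} [L.IsRelational] {β : Type} (t : L.Term β) :
    ∃ b, t = Term.var b := by
  cases t with
  | var b => exact ⟨b, rfl⟩
  | func f _ => exact isEmptyElim f

theorem slide_lemma {L : FirstOrder.Language.{0, 0}} [L.IsRelational] {α : Type} {n : ℕ}
    (φ : L.BoundedFormula α n) : ∃ D : ℕ, ∀ (M N : Type) [L.Structure M] [L.Structure N]
      (top : ℕ) (S : Slide L M N top) (c : ℕ), c + D ≤ top →
      ∀ (v : α → M) (xs : Fin n → M), (∀ a, Far c D (S.pos (v a))) →
        (∀ k, Far c D (S.pos (xs k))) →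
        (φ.Realize v xs ↔ φ.Realize (fun a => S.th c (v a)) (fun k => S.th c (xs k))) := by
  have hel : ∀ {M N : Type} {α : Type} {n : ℕ} (th : M → N) (v : α → M) (xs : Fin n → M)
      (b : α ⊕ Fin n), Sum.elim (fun a => th (v a)) (fun k => th (xs k)) b =
        th (Sum.elim v xs b) := by
    intro M N α n th v xs b
    cases b <;> rfl
  induction φ with
  | falsum => exact ⟨0, fun M N _ _ top S c _ v xs _ _ => Iff.rfl⟩
  | equal t₁ t₂ =>
    refine ⟨0, fun M N _ _ top S c _ v xs _ _ => ?_⟩
    obtain ⟨b₁, rfl⟩ := term_eq_var t₁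
    obtain ⟨b₂, rfl⟩ := term_eq_var t₂
    simp only [BoundedFormula.Realize, Term.realize_var, hel]
    exact (S.th c).injective.eq_iff.symm
  | rel R ts =>
    refine ⟨1, fun M N _ _ top S c hc v xs hv hx => ?_⟩
    choose b hb using fun i => term_eq_var (ts i)
    simp only [BoundedFormula.Realize, hb, Term.realize_var, hel]
    refine S.rel c (by omega) _ R (fun i => Sum.elim v xs (b i)) fun k => ?_
    have hfar : Far c 1 (S.pos (Sum.elim v xs (b k))) := by
      cases b k with
      | inl a => exact hv a
      | inr i => exact hx i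
    constructor <;> intro h <;> rcases hfar _ h with h | h <;> omega
  | imp f₁ f₂ ih₁ ih₂ =>
    obtain ⟨D₁, h₁⟩ := ih₁
    obtain ⟨D₂, h₂⟩ := ih₂
    refine ⟨max D₁ D₂, fun M N _ _ top S c hc v xs hv hx => ?_⟩
    have e₁ := h₁ M N top S c (by omega) v xs (fun a => (hv a).mono (by omega))
      (fun k => (hx k).mono (by omega))
    have e₂ := h₂ M N top S c (by omega) v xs (fun a => (hv a).mono (by omega))
      (fun k => (hx k).mono (by omega))
    simp only [BoundedFormula.Realize, e₁, e₂]
  | @all n f ih =>
    obtain ⟨D, hD⟩ := ih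
    refine ⟨3 * D + 1, fun M N _ _ top S c hc v xs hv hx => ?_⟩
    have hsnoc : ∀ (c' : ℕ) (xs : Fin n → M) (x : M),
        (fun k => S.th c' ((Fin.snoc xs x : Fin (n + 1) → M) k)) =
          (Fin.snoc (fun k => S.th c' (xs k)) (S.th c' x) : Fin (n + 1) → N) := by
      intro c' xs x
      funext k
      refine Fin.lastCases ?_ (fun i => ?_) k
      · simp
      · simp
    -- the case of a point far from the cut
    have key1 : ∀ x : M, Far c D (S.pos x) →
        (f.Realize v (Fin.snoc xs x) ↔
          f.Realize (fun a => S.th c (v a))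
            (Fin.snoc (fun k => S.th c (xs k)) (S.th c x) : Fin (n + 1) → N)) := by
      intro x hxf
      have := hD M N top S c (by omega) v (Fin.snoc xs x) (fun a => (hv a).mono (by omega)) (by
        intro k
        refine Fin.lastCases ?_ (fun i => ?_) k
        · simpa using hxf
        · simpa using (hx i).mono (by omega))
      rw [this, hsnoc]
    have hc' : c ≤ c + (2 * D + 1) := by omega
    have ev : ∀ a, S.th c (v a) = S.th (c + (2 * D + 1)) (v a) := fun a =>
      S.agree _ _ hc' _ fun t ht => by rcases hv a t ht with h | h <;> omega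
    have ex : ∀ k, S.th c (xs k) = S.th (c + (2 * D + 1)) (xs k) := fun k =>
      S.agree _ _ hc' _ fun t ht => by rcases hx k t ht with h | h <;> omega
    have key2 : ∀ x : M, ¬ Far c D (S.pos x) →
        (f.Realize v (Fin.snoc xs x) ↔
          f.Realize (fun a => S.th c (v a))
            (Fin.snoc (fun k => S.th c (xs k)) (S.th (c + (2 * D + 1)) x) : Fin (n + 1) → N)) := by
      intro x hxf
      have hnear : ∃ t, S.pos x = some t ∧ t ≤ c + D := by
        unfold Far at hxf
        push Not at hxf
        obtain ⟨t, ht, h1, h2⟩ := hxf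
        exact ⟨t, ht, h2⟩
      have := hD M N top S (c + (2 * D + 1)) (by omega) v (Fin.snoc xs x) (fun a t ht => by
          rcases hv a t ht with h | h <;> omega) (by
        intro k
        refine Fin.lastCases ?_ (fun i => ?_) k
        · intro t ht
          obtain ⟨t', ht', h1⟩ := hnear
          rw [Fin.snoc_last, ht'] at ht
          obtain rfl : t' = t := by simpa using ht
          omega
        · intro t ht
          rw [Fin.snoc_castSucc] at ht
          rcases hx i t ht with h | h <;> omega)
      rw [this, hsnoc]
      simp only [ev, ex]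
    simp only [BoundedFormula.Realize]
    constructor
    · intro h y
      by_cases hy : Far c D (S.posN y)
      · have hpos : S.pos ((S.th c).symm y) = S.posN y := by
          rw [← S.pos_th c, Equiv.apply_symm_apply]
        have := (key1 ((S.th c).symm y) (by rwa [hpos])).mp (h _)
        rwa [Equiv.apply_symm_apply] at this
      · have hpos : S.pos ((S.th (c + (2 * D + 1))).symm y) = S.posN y := by
          rw [← S.pos_th (c + (2 * D + 1)), Equiv.apply_symm_apply]
        have := (key2 ((S.th (c + (2 * D + 1))).symm y) (by rwa [hpos])).mp (h _)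
        rwa [Equiv.apply_symm_apply] at this
    · intro h x
      by_cases hx' : Far c D (S.pos x)
      · exact (key1 x hx').mpr (h _)
      · exact (key2 x hx').mpr (h _)

/-- sliding cut lemma for sentences -/
theorem slide_sentence {L : FirstOrder.Language.{0, 0}} [L.IsRelational] (φ : L.Sentence) :
    ∃ D : ℕ, ∀ (M N : Type) [L.Structure M] [L.Structure N] (top : ℕ) (_ : Slide L M N top),
      D ≤ top → (M ⊨ φ ↔ N ⊨ φ) := by
  obtain ⟨D, hD⟩ := slide_lemma φ
  refine ⟨D, fun M N _ _ top S htop => ?_⟩
  have := hD M N top S 0 (by omega) default default (fun a => a.elim) (fun k => k.elim0)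
  have e1 : (fun a => S.th 0 ((default : Empty → M) a)) = default := funext fun a => a.elim
  have e2 : (fun k => S.th 0 ((default : Fin 0 → M) k)) = default := funext fun k => k.elim0
  rw [e1, e2] at this
  exact this

end Pool.Agent.Lib.MP_46fb1e_lc
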