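import Mathlib
import Pool.Agent.Lib.MP_46fb1e_lc.Slide
import Pool.Agent.Lib.MP_46fb1e_lc.Gadget
import Pool.Agent.Lib.MP_46fb1e_lc.Graph

/-!
Finite-domain (or arbitrary) constraint satisfaction problems in hereditary first-order logic do not
pp-construct the triangle.
-/

set_option autoImplicit false

namespace Pool.Agent.Lib.MP_46fb1e_lc

open FirstOrder FirstOrder.Language FirstOrder.Language.Structure

section theta

variable {m n : ℕ} (σ : Equiv.Perm (Fin m)) (c : ℕ)

/-- move the vertices of the wires at positions `1, ..., c` -/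
def tV : Vt m n → Vt m n
  | Vt.col i => Vt.col i
  | Vt.w k t => if 0 < t.val ∧ t.val ≤ c then Vt.w (σ k) t else Vt.w k t
  | Vt.ng a k => Vt.ng a k
  | Vt.p a k => Vt.p a k
  | Vt.q a k => Vt.q a k
  | Vt.c a j => Vt.c a j

/-- move the arcs of the wires at positions `1, ..., c` -/
def tA : At m n → At m n
  | At.tri i => At.tri i
  | At.wn k t => if 0 < t.val ∧ t.val ≤ c then At.wn (σ k) t else At.wn k t
  | At.wl k t => if 0 < t.val ∧ t.val ≤ c then At.wl (σ k) t else At.wl k t
  | At.ngn a k => At.ngn a k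
  | At.ngw a k => At.ngw a k
  | At.pq a k => At.pq a k
  | At.qc a k => At.qc a k
  | At.cp a k => At.cp a k
  | At.pc a k => At.pc a k
  | At.ql a k => At.ql a k
  | At.ct a => At.ct a
  | At.cn a => At.cn a
  | At.cf a => At.cf a

/-- positions of vertices -/
def posV : Vt m n → Option ℕ
  | Vt.w _ t => some t.val
  | _ => none

/-- positions of arcs -/
def posA : At m n → Option ℕ
  | At.wn _ t => some t.val
  | At.wl _ t => some t.val
  | _ => none

lemma posV_tV (v : Vt m n) : posV (tV σ c v) = posV v := by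
  cases v <;> simp only [tV]
  split_ifs <;> rfl

lemma posA_tA (e : At m n) : posA (tA σ c e) = posA e := by
  cases e <;> simp only [tA]
  all_goals split_ifs <;> rfl

variable {σ}

lemma tV_tV (hσ : ∀ k, σ (σ k) = k) (v : Vt m n) : tV σ c (tV σ c v) = v := by
  cases v with
  | w k t =>
    by_cases h : 0 < t.val ∧ t.val ≤ c
    · simp only [tV, if_pos h, hσ]
    · simp only [tV, if_neg h]
  | _ => rfl

lemma tA_tA (hσ : ∀ k, σ (σ k) = k) (e : At m n) : tA σ c (tA σ c e) = e := by
  cases e with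
  | wn k t =>
    by_cases h : 0 < t.val ∧ t.val ≤ c
    · simp only [tA, if_pos h, hσ]
    · simp only [tA, if_neg h]
  | wl k t =>
    by_cases h : 0 < t.val ∧ t.val ≤ c
    · simp only [tA, if_pos h, hσ]
    · simp only [tA, if_neg h]
  | _ => rfl

variable (σ)

lemma src_tA (e : At m n) : srcG (tA σ c e) = tV σ c (srcG e) := by
  cases e with
  | wn k t =>
    by_cases h : 0 < t.val ∧ t.val ≤ c
    · simp only [tA, tV, srcG, if_pos h]
    · simp only [tA, tV, srcG, if_neg h]
  | wl k t =>
    by_cases h : 0 < t.val ∧ t.val ≤ c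
    · simp only [tA, tV, srcG, Fin.val_castSucc, if_pos h]
    · simp only [tA, tV, srcG, Fin.val_castSucc, if_neg h]
  | _ => rfl

variable {c}

lemma tV_endp (hc : c < n) (a : Fin m → Bool) (k : Fin m) :
    tV σ c (Vt.w k (endp n a)) = Vt.w k (endp n a) := by
  unfold endp
  split_ifs
  · simp [tV]
  · simp only [tV, Fin.val_last]
    rw [if_neg (by omega)]

lemma tgt_tA (hc : c < n) (e : At m n) (he : posV (tgtG 1 e) ≠ some (c + 1)) :
    tgtG σ (tA σ c e) = tV σ c (tgtG 1 e) := by
  cases e with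
  | wn k t =>
    by_cases h : 0 < t.val ∧ t.val ≤ c
    · simp only [tA, tV, tgtG, if_pos h]
    · simp only [tA, tV, tgtG, if_neg h]
  | wl k t =>
    have he' : t.val + 1 ≠ c + 1 := by
      intro h
      apply he
      simp only [tgtG, Equiv.Perm.coe_one, id, ite_self, posV, Fin.val_succ, h]
    by_cases h : 0 < t.val ∧ t.val ≤ c
    · have h1 : t.val ≠ 0 := by omega
      have h2 : 0 < t.val + 1 ∧ t.val + 1 ≤ c := by omega
      simp only [tA, tgtG, if_pos h, if_neg h1, tV, Fin.val_succ, if_pos h2]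
    · simp only [tA, tgtG, if_neg h, Equiv.Perm.coe_one, id, ite_self]
      by_cases h1 : t.val = 0
      · have h2 : 0 < t.val + 1 ∧ t.val + 1 ≤ c := by omega
        simp only [if_pos h1, tV, Fin.val_succ, if_pos h2]
      · have h2 : ¬ (0 < t.val + 1 ∧ t.val + 1 ≤ c) := by omega
        simp only [if_neg h1, tV, Fin.val_succ, if_neg h2]
  | ngw a k =>
    simp only [tA, tgtG]
    rw [tV_endp σ hc]
  | ql a k =>
    simp only [tA, tgtG, lit]
    split_ifs
    · rfl
    · rw [tV_endp σ hc]
  | _ => rfl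

lemma posV_tgt (e : At m n) : posV (tgtG σ (tA σ c e)) = posV (tgtG 1 e) := by
  cases e with
  | wn k t =>
    by_cases h : 0 < t.val ∧ t.val ≤ c
    · simp only [tA, tgtG, if_pos h]
    · simp only [tA, tgtG, if_neg h]
  | wl k t =>
    have h0 : posV (tgtG 1 (At.wl k t)) = some (t.val + 1) := by
      simp only [tgtG, Equiv.Perm.coe_one, id, ite_self, posV, Fin.val_succ]
    rw [h0]
    by_cases h : 0 < t.val ∧ t.val ≤ c
    · simp only [tA, tgtG, if_pos h]
      split_ifs <;> simp [posV]
    · simp only [tA, tgtG, if_neg h]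
      split_ifs <;> simp [posV]
  | _ => rfl

end theta

section gi

variable {L : FirstOrder.Language.{0, 0}} [L.IsRelational] {d : ℕ} {Γ : Type}
  [L.Structure Γ] {p q : Fin d → Γ} {m n : ℕ} {σ : Equiv.Perm (Fin m)} {c : ℕ}

/-- positions of elements of the gadget replacement -/
def posG {D : DG (Vt m n) (At m n)} : GI p q D → Option ℕ
  | GI.gl _ => none
  | GI.vt u _ => posV u
  | GI.inn e _ => posA e

/-- transport between gadget replacements -/
def mvG (c : ℕ) (σ : Equiv.Perm (Fin m)) {D D' : DG (Vt m n) (At m n)} : GI p q D → GI p q D'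
  | GI.gl K => GI.gl K
  | GI.vt u K => GI.vt (tV σ c u) K
  | GI.inn e γ => GI.inn (tA σ c e) γ

/-- renaming -/
def rc {D D' : DG (Vt m n) (At m n)} : GI p q D → GI p q D'
  | GI.gl K => GI.gl K
  | GI.vt u K => GI.vt u K
  | GI.inn e γ => GI.inn e γ

lemma mvG_mvG (hσ : ∀ k, σ (σ k) = k) {D D' : DG (Vt m n) (At m n)} (x : GI p q D) :
    (mvG c σ (mvG c σ x : GI p q D') : GI p q D) = x := by
  cases x with
  | gl K => rfl
  | vt u K => simp only [mvG, tV_tV c hσ]
  | inn e γ => simp only [mvG, tA_tA c hσ]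

lemma posG_mvG {D D' : DG (Vt m n) (At m n)} (x : GI p q D) :
    posG (mvG c σ x : GI p q D') = posG x := by
  cases x with
  | gl K => rfl
  | vt u K => exact posV_tV σ c u
  | inn e γ => exact posA_tA σ c e

variable (σ)

lemma posG_io (e : At m n) (γ : Γ) :
    posG (io (p := p) (q := q) (Gr m n σ) (tA σ c e) γ) =
      posG (io (p := p) (q := q) (Gr m n 1) e γ) := by
  by_cases h1 : ∃ k, p k = γ
  · obtain ⟨k, rfl⟩ := h1
    rw [io_p, io_p]
    unfold elt
    split_ifs
    · rfl
    · change posV (srcG (tA σ c e)) = posV (srcG e)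
      rw [src_tA, posV_tV]
  · by_cases h2 : ∃ k, q k = γ
    · obtain ⟨k, rfl⟩ := h2
      rw [io_q, io_q]
      unfold elt
      split_ifs
      · rfl
      · exact posV_tgt σ e
    · rw [io_inner _ _ h1 h2, io_inner _ _ h1 h2]
      exact posA_tA σ c e

lemma mvG_io (hc : c < n) (e : At m n) (γ : Γ)
    (he : posG (io (p := p) (q := q) (Gr m n 1) e γ) ≠ some (c + 1)) :
    mvG c σ (io (p := p) (q := q) (Gr m n 1) e γ) =
      io (p := p) (q := q) (Gr m n σ) (tA σ c e) γ := by
  by_cases h1 : ∃ k, p k = γ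
  · obtain ⟨k, rfl⟩ := h1
    rw [io_p] at he ⊢
    rw [io_p]
    unfold elt at he ⊢
    split_ifs at he ⊢
    · rfl
    · change GI.vt (tV σ c (srcG e)) _ = GI.vt (srcG (tA σ c e)) _
      rw [src_tA]
  · by_cases h2 : ∃ k, q k = γ
    · obtain ⟨k, rfl⟩ := h2
      rw [io_q] at he ⊢
      rw [io_q]
      unfold elt at he ⊢
      split_ifs at he ⊢
      · rfl
      · change GI.vt (tV σ c (tgtG 1 e)) _ = GI.vt (tgtG σ (tA σ c e)) _
        rw [tgt_tA σ hc e he]
    · rw [io_inner _ _ h1 h2, io_inner _ _ h1 h2]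
      rfl

variable {σ}

lemma mvG_agree {c c' : ℕ} (hcc : c ≤ c') {D D' : DG (Vt m n) (At m n)} (x : GI p q D)
    (hx : ∀ t, posG x = some t → t ≤ c ∨ c' < t) :
    (mvG c σ x : GI p q D') = mvG c' σ x := by
  have key : ∀ t : ℕ, (t ≤ c ∨ c' < t) → ((0 < t ∧ t ≤ c) ↔ (0 < t ∧ t ≤ c')) := by
    intro t ht; omega
  cases x with
  | gl K => rfl
  | vt u K =>
    cases u with
    | w k t =>
      have := key t.val (hx t.val rfl)
      simp only [mvG, tV, this]
    | _ => rfl
  | inn e γ =>
    cases e with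
    | wn k t =>
      have := key t.val (hx t.val rfl)
      simp only [mvG, tA, this]
    | wl k t =>
      have := key t.val (hx t.val rfl)
      simp only [mvG, tA, this]
    | _ => rfl

/-- the sliding data for a substructure and its rewired version -/
theorem exists_slide {i j : Fin m} {top : ℕ} (htop : top < n)
    (S : L.Substructure (GI p q (Gr m n 1)))
    (hv : ∀ t K, GI.vt (Vt.w i t) K ∈ S ↔ GI.vt (Vt.w j t) K ∈ S)
    (hl : ∀ t γ, GI.inn (At.wl i t) γ ∈ S ↔ GI.inn (At.wl j t) γ ∈ S)
    (hn : ∀ t γ, GI.inn (At.wn i t) γ ∈ S ↔ GI.inn (At.wn j t) γ ∈ S) :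
    ∃ S' : L.Substructure (GI p q (Gr m n (Equiv.swap i j))),
      ((S : Set (GI p q (Gr m n 1))).Nonempty →
        (S' : Set (GI p q (Gr m n (Equiv.swap i j)))).Nonempty) ∧
      Nonempty (Slide L S S' top) := by
  classical
  set σ := Equiv.swap i j with hσ
  have hinv : ∀ k, σ (σ k) = k := fun k => Equiv.swap_apply_self i j k
  let S' : L.Substructure (GI p q (Gr m n σ)) :=
    ⟨{y | (rc y : GI p q (Gr m n 1)) ∈ S}, fun f => isEmptyElim f⟩
  have hcase : ∀ k : Fin m, σ k = k ∨ (k = i ∧ σ k = j) ∨ (k = j ∧ σ k = i) := by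
    intro k
    by_cases h1 : k = i
    · subst h1; right; left; exact ⟨rfl, Equiv.swap_apply_left _ _⟩
    · by_cases h2 : k = j
      · subst h2; right; right; exact ⟨rfl, Equiv.swap_apply_right _ _⟩
      · left; exact Equiv.swap_apply_of_ne_of_ne h1 h2
  have hmem : ∀ c (x : GI p q (Gr m n 1)), x ∈ S ↔ (mvG c σ x : GI p q (Gr m n σ)) ∈ S' := by
    intro c x
    change x ∈ S ↔ (rc (mvG c σ x : GI p q (Gr m n σ)) : GI p q (Gr m n 1)) ∈ S
    cases x with
    | gl K => exact Iff.rfl
    | vt u K =>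
      cases u with
      | w k t =>
        simp only [mvG, tV, rc]
        split_ifs
        · rcases hcase k with h | ⟨rfl, h⟩ | ⟨rfl, h⟩
          · rw [h]
          · rw [h]; exact hv t K
          · rw [h]; exact (hv t K).symm
        · exact Iff.rfl
      | _ => exact Iff.rfl
    | inn e γ =>
      cases e with
      | wn k t =>
        simp only [mvG, tA, rc]
        split_ifs
        · rcases hcase k with h | ⟨rfl, h⟩ | ⟨rfl, h⟩
          · rw [h]
          · rw [h]; exact hn t γ
          · rw [h]; exact (hn t γ).symm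
        · exact Iff.rfl
      | wl k t =>
        simp only [mvG, tA, rc]
        split_ifs
        · rcases hcase k with h | ⟨rfl, h⟩ | ⟨rfl, h⟩
          · rw [h]
          · rw [h]; exact hl t γ
          · rw [h]; exact (hl t γ).symm
        · exact Iff.rfl
      | _ => exact Iff.rfl
  let thE : ℕ → GI p q (Gr m n 1) ≃ GI p q (Gr m n σ) := fun c =>
    { toFun := mvG c σ
      invFun := mvG c σ
      left_inv := fun x => mvG_mvG hinv x
      right_inv := fun x => mvG_mvG hinv x }
  refine ⟨S', ?_, ⟨?_⟩⟩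
  · rintro ⟨x, hx⟩
    exact ⟨mvG 0 σ x, (hmem 0 x).mp hx⟩
  · refine
      { pos := fun x => posG x.1
        posN := fun x => posG x.1
        th := fun c => (thE c).subtypeEquiv (hmem c)
        pos_th := fun c x => posG_mvG x.1
        agree := fun c c' hcc x hx => Subtype.ext (mvG_agree hcc x.1 hx)
        rel := ?_ }
    intro c hc l R x hx
    have hcn : c < n := by omega
    change RelMap R (fun k => (x k).1) ↔ RelMap R (fun k => (mvG c σ (x k).1 : GI p q (Gr m n σ)))
    rw [relMap_GI, relMap_GI]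
    constructor
    · rintro ⟨e, y, hy, hxy⟩
      refine ⟨tA σ c e, y, hy, funext fun k => ?_⟩
      have h1 : (x k).1 = io (Gr m n 1) e (y k) := congrFun hxy k
      have h2 := (hx k).2
      rw [h1] at h2
      rw [h1, mvG_io σ hcn e (y k) h2]
    · rintro ⟨e', y, hy, hxy⟩
      refine ⟨tA σ c e', y, hy, funext fun k => ?_⟩
      have h1 : mvG c σ (x k).1 = io (Gr m n σ) e' (y k) := congrFun hxy k
      have h3 : tA σ c (tA σ c e') = e' := tA_tA c hinv e'
      have h4 := posG_io (p := p) (q := q) (n := n) (c := c) σ (tA σ c e') (y k)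
      rw [h3] at h4
      have h5 : posG (x k).1 = posG (io (p := p) (q := q) (Gr m n 1) (tA σ c e') (y k)) := by
        rw [← h4, ← h1, posG_mvG]
      have h2 := (hx k).2
      simp only [h5] at h2
      have h6 := mvG_io (p := p) (q := q) σ hcn (tA σ c e') (y k) h2
      rw [h3, ← h1] at h6
      have h7 := congrArg (mvG c σ : GI p q (Gr m n σ) → GI p q (Gr m n 1)) h6
      rw [mvG_mvG hinv, mvG_mvG hinv] at h7
      exact h7.symm

end gi

end Pool.Agent.Lib.MP_46fb1e_lc
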